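import Pool.Agent.Helper53.AE.GoalsB

/-!
# Packet AE-CEX (project AE, MP_8130e1_an)
-/

set_option autoImplicit false

open scoped ComplexOrder Topology
open Filter TopologicalSpace

namespace Pool.Agent.Helper99.AE.CEX

open Pool.Agent.Helper53.AE

theorem t (arv : S_ARV) : S_CEX := by
  intro M _ n r f hf
  obtain ⟨P, hP⟩ : ∃ P : M, P = ∑ p, f p p := ⟨_, rfl⟩
  rw [← hP]
  have hPf : ∀ x y, P * f x y = f x y := by
    intro x y
    rw [hP, Finset.sum_mul, Finset.sum_eq_single x]
    · by_cases hxy : r x = r y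
      · exact hf.mul x x y rfl hxy
      · rw [hf.zero x y hxy, mul_zero]
    · intro p _ hp
      exact hf.orth p p x y hp
    · intro h; exact absurd (Finset.mem_univ x) h
  have hfP : ∀ x y, f x y * P = f x y := by
    intro x y
    rw [hP, Finset.mul_sum, Finset.sum_eq_single y]
    · by_cases hxy : r x = r y
      · exact hf.mul x y y hxy rfl
      · rw [hf.zero x y hxy, zero_mul]
    · intro p _ hp
      exact hf.orth x y p p (Ne.symm hp)
    · intro h; exact absurd (Finset.mem_univ y) h
  have hPl : ∀ a ∈ spn f, P * a = a := by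
    intro a ha
    refine Submodule.span_induction (p := fun a _ => P * a = a) ?_ ?_ ?_ ?_ ha
    · rintro _ ⟨⟨x, y⟩, rfl⟩; exact hPf x y
    · exact mul_zero P
    · intro a b _ _ ha hb; rw [mul_add, ha, hb]
    · intro c a _ ha; rw [mul_smul_comm, ha]
  have hPr : ∀ a ∈ spn f, a * P = a := by
    intro a ha
    refine Submodule.span_induction (p := fun a _ => a * P = a) ?_ ?_ ?_ ?_ ha
    · rintro _ ⟨⟨x, y⟩, rfl⟩; exact hfP x y
    · exact zero_mul P
    · intro a b _ _ ha hb; rw [add_mul, ha, hb]
    · intro c a _ ha; rw [smul_mul_assoc, ha]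
  have hPm : P ∈ spn f := by
    rw [hP]
    exact Submodule.sum_mem _ fun p _ => Submodule.subset_span ⟨(p, p), rfl⟩
  have hPP : P * P = P := hPl P hPm
  have hPs : star P = P := by
    rw [hP, star_sum]
    exact Finset.sum_congr rfl fun p _ => hf.star p p
  have hst : ∀ a ∈ spn f, star a ∈ spn f := by
    intro a ha
    refine Submodule.span_induction (p := fun a _ => star a ∈ spn f) ?_ ?_ ?_ ?_ ha
    · rintro _ ⟨⟨x, y⟩, rfl⟩
      change star (f x y) ∈ spn f
      rw [hf.star]
      exact Submodule.subset_span ⟨(y, x), rfl⟩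
    · rw [star_zero]; exact Submodule.zero_mem _
    · intro a b _ _ ha hb; rw [star_add]; exact Submodule.add_mem _ ha hb
    · intro c a _ ha; rw [star_smul]; exact Submodule.smul_mem _ _ ha
  let V : Submodule ℂ M :=
    { carrier := {x | ∃ l : ℂ, x - l • (1 : M) ∈ spn f}
      add_mem' := by
        rintro a b ⟨l, hl⟩ ⟨k, hk⟩
        refine ⟨l + k, ?_⟩
        have : a + b - (l + k) • (1 : M) = (a - l • (1 : M)) + (b - k • (1 : M)) := by
          rw [add_smul]; abel
        rw [this]; exact Submodule.add_mem _ hl hk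
      zero_mem' := ⟨0, by simp⟩
      smul_mem' := by
        rintro c a ⟨l, hl⟩
        refine ⟨c * l, ?_⟩
        have : c • a - (c * l) • (1 : M) = c • (a - l • (1 : M)) := by
          rw [smul_sub, smul_smul]
        rw [this]; exact Submodule.smul_mem _ _ hl }
  have hVP : ∀ x ∈ V, P * x = x * P ∧ P * x ∈ spn f := by
    rintro x ⟨l, hl⟩
    have hx : x = (x - l • (1 : M)) + l • (1 : M) := by abel
    have h1 : P * x = (x - l • (1 : M)) + l • P := by
      conv_lhs => rw [hx]
      rw [mul_add, hPl _ hl, mul_smul_comm, mul_one]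
    have h2 : x * P = (x - l • (1 : M)) + l • P := by
      conv_lhs => rw [hx]
      rw [add_mul, hPr _ hl, smul_mul_assoc, one_mul]
    refine ⟨h1.trans h2.symm, ?_⟩
    rw [h1]
    exact Submodule.add_mem _ hl (Submodule.smul_mem _ _ hPm)
  let μ : V →ₗ[ℂ] M := (LinearMap.mulLeft ℂ P).comp V.subtype
  have hμ : ∀ x : V, μ x = P * (x : M) := fun x => rfl
  have h1V : (1 : M) ∈ V := ⟨1, by simp⟩
  have hsV : ∀ a ∈ spn f, a ∈ V := fun a ha => ⟨0, by simpa using ha⟩
  obtain ⟨κ, hκ, hpos⟩ := arv M M V μ n r f hf h1V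
    (by
      rintro x ⟨l, hl⟩
      refine ⟨star l, ?_⟩
      have : star x - star l • (1 : M) = star (x - l • (1 : M)) := by
        rw [star_sub, star_smul, star_one]
      rw [this]
      exact hst _ hl)
    (fun x => by rw [hμ]; exact (hVP x x.2).2)
    (by
      rintro K ⟨s, W, -, hW⟩
      refine ⟨s, fun j i => W j i * P, fun _ _ => Set.mem_univ _, ?_⟩
      intro i j
      have hc := (hVP (K i j) (K i j).2).1
      have h3 : μ (K i j) = P * (K i j : M) * P := by
        rw [hμ, mul_assoc, ← hc, ← mul_assoc, hPP]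
      have h4 : (K i j : M) = ∑ l, star (W l i) * W l j := hW i j
      change μ (K i j) = ∑ l, star (W l i * P) * (W l j * P)
      rw [h3, h4, Finset.mul_sum, Finset.sum_mul]
      apply Finset.sum_congr rfl
      intro l _
      rw [star_mul, hPs]
      simp only [mul_assoc])
  refine ⟨κ, ?_, ?_, hpos⟩
  · intro a ha
    rw [hκ ⟨a, hsV a ha⟩, hμ]
    exact hPl a ha
  · rw [hκ ⟨1, h1V⟩, hμ]
    exact mul_one P

end Pool.Agent.Helper99.AE.CEX
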